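import Pool.Agent.H14.FRU.Stmts

/-!
Module CHL of project FRU: the continuum hypothesis implies Luzin's axiom.
-/

set_option linter.unusedVariables false
set_option synthInstance.maxSize 100000

namespace SW.FU

/-- CHL -/
theorem fru_chl : CHLStmt := by
  intro M _ _ h
  obtain ⟨w, o, f, hw, ho, h1, h2⟩ := h
  refine ⟨w, o, hw, ho, ?_⟩
  rintro ⟨g, h3, h4⟩
  have h3' : ∀ X, Sub X w → ∃ y, SW.Incl y o ∧ PairIn X y g := h3
  have h4' : ∀ X X' y, Sub X w → Sub X' w → PairIn X y g → PairIn X' y g → X = X' := h4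
  -- the set `D`
  obtain ⟨D, hD⟩ : ∃ D : M, ∀ a, E a D ↔ E a w ∧ ∃ X y, Sub X w ∧ Sub y o ∧
      E (opair X y) g ∧ E (opair y a) f ∧ ¬ E a X :=
    ⟨sep w (fun a => ∃ X y, Sub X w ∧ Sub y o ∧ E (opair X y) g ∧ E (opair y a) f ∧ ¬ E a X),
      fun a => mem_sep' inferInstance⟩
  have hDw : Sub D w := fun a ha => ((hD a).1 ha).1
  obtain ⟨y, hy, hDy⟩ := h3' D hDw
  obtain ⟨a, ha, hya⟩ := h1 y hy
  have key : ∀ X y', Sub X w → Sub y' o → E (opair X y') g → E (opair y' a) f → X = D := by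
    intro X y' hX hy' hXy hya'
    have e1 : y' = y := h2 y' y a hy' hy (pairIn_iff.2 hya') hya
    subst e1
    exact h4' X D y' hX hDw (pairIn_iff.2 hXy) hDy
  by_cases haD : E a D
  · obtain ⟨_, X, y', hX, hy', hXy, hya', hn⟩ := (hD a).1 haD
    rw [key X y' hX hy' hXy hya'] at hn
    exact hn haD
  · exact haD ((hD a).2 ⟨ha, D, y, hDw, hy, pairIn_iff.1 hDy, pairIn_iff.1 hya, haD⟩)

end SW.FU
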