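import Pool.Agent.H14.FRU.Stmts

/-!
Module DL2 of project FRU: delta systems of conditions.
-/

set_option linter.unusedVariables false
set_option synthInstance.maxSize 100000

namespace SW.FU

/-- DL2 -/
theorem fru_dl2 (hdel : DELStmt) : DL2Stmt := by
  intro M _ _ w L U A R V hK hV hVc
  have h01 : (emp : M) ≠ suc emp := (suc_ne_emp emp).symm
  let s : M → M := fun p => bun (prod (sing emp) (cg p)) (prod (sing (suc emp)) (cd p))
  have hs : Fn1 s := by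
    simp only [s]
    infer_instance
  have ms0 : ∀ p x, E (opair emp x) (s p) ↔ E x (cg p) := by
    intro p x
    simp only [s]
    rw [mem_bun, mem_prod, mem_prod, mem_sing, mem_sing]
    exact ⟨fun h => h.elim (fun h => h.2) fun h => absurd h.1 h01, fun h => Or.inl ⟨rfl, h⟩⟩
  have ms1 : ∀ p x, E (opair (suc emp) x) (s p) ↔ E x (cd p) := by
    intro p x
    simp only [s]
    rw [mem_bun, mem_prod, mem_prod, mem_sing, mem_sing]
    exact ⟨fun h => h.elim (fun h => absurd h.1 h01.symm) fun h => h.2,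
      fun h => Or.inr ⟨rfl, h⟩⟩
  have hcn : ∀ p, E p V → Cn2 w L A p := fun p hp => (mem_P2.1 (hV p hp)).2
  have hsf : ∀ p, E p V → Fnt (s p) := by
    intro p hp
    obtain ⟨_, ⟨h1, _⟩, ⟨h2, _⟩, _⟩ := hcn p hp
    have h3 : ∀ a : M, Fnt (sing a) := fun a => by
      have : sing a = ins a emp := SW.ext fun z => by rw [mem_sing, mem_ins]; simp
      rw [this]
      exact finF.ins finF.emp
    exact finF.bun (finF.prod (h3 _) h1) (finF.prod (h3 _) h2)
  obtain ⟨V', r, h1, h2, h3, h4, h5⟩ := hdel M V s hs hVc hsf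
  obtain ⟨g0, hg0⟩ : ∃ g0 : M, ∀ x, E x g0 ↔ E x L ∧ E (opair emp x) r :=
    ⟨sep L (fun x => E (opair emp x) r), fun x => mem_sep' inferInstance⟩
  obtain ⟨d0, hd0⟩ : ∃ d0 : M, ∀ x, E x d0 ↔ E x w ∧ E (opair (suc emp) x) r :=
    ⟨sep w (fun x => E (opair (suc emp) x) r), fun x => mem_sep' inferInstance⟩
  have hi : Fnt (img r (fun z => sn z)) := finF.img _ inferInstance h3
  refine ⟨V', g0, d0, h1, h2, finF.sub hi fun x hx => ?_, fun x hx => ((hg0 x).1 hx).1,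
    finF.sub hi fun x hx => ?_, fun x hx => ((hd0 x).1 hx).1, fun p hp => ⟨fun x hx => ?_,
      fun x hx => ?_⟩, fun p q hp hq hne => ⟨fun x hx hx' => ?_, fun x hx hx' => ?_⟩⟩
  · rw [mem_img' inferInstance]
    exact ⟨_, ((hg0 x).1 hx).2, by rw [sn_op]⟩
  · rw [mem_img' inferInstance]
    exact ⟨_, ((hd0 x).1 hx).2, by rw [sn_op]⟩
  · exact (ms0 p x).1 (h4 p hp _ ((hg0 x).1 hx).2)
  · exact (ms1 p x).1 (h4 p hp _ ((hd0 x).1 hx).2)
  · obtain ⟨_, ⟨_, h6⟩, _⟩ := hcn p (h1 p hp)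
    exact (hg0 x).2 ⟨h6 x hx, h5 p q hp hq hne _ ((ms0 p x).2 hx) ((ms0 q x).2 hx')⟩
  · obtain ⟨_, _, ⟨_, h6⟩, _⟩ := hcn p (h1 p hp)
    exact (hd0 x).2 ⟨h6 x hx, h5 p q hp hq hne _ ((ms1 p x).2 hx) ((ms1 q x).2 hx')⟩

end SW.FU
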