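import Pool.Agent.H14.FRU.Stmts

/-!
Module GJ2 of project FRU: the functions `j` and the reals.
-/

set_option linter.unusedVariables false
set_option synthInstance.maxSize 100000

namespace SW.FU

section
variable {M : Type} [SetStr M] [ZF M]

/-- members of the generic functions `j` -/
theorem gj2_jv {w L U A : M} {G : M → Prop} (hG : Gen (PG2 w L U A) G)
    [ZF (Ext (PG2 w L U A) G)] {S α : M} {y : Ext (PG2 w L U A) G} :
    Jv (mk (PG2 w L U A) G (JN w L U A)) (emb _ G S) (emb _ G α) y ↔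
      ∃ p m, G p ∧ Jv (cj p) S α m ∧ y = emb _ G m := by
  have hR : Cl2 (fun p z : M => E z (cj p)) := inferInstance
  have tf := traF hG
  have ef := embF hG
  unfold Jv JN
  rw [mem_mk_Nmx hG hR]
  constructor
  · rintro ⟨p, x, hp, hx, hr, he⟩
    rw [mem_prod'] at hx
    obtain ⟨u, m, hu, hm, rfl⟩ := hx
    rw [mem_prod'] at hu
    obtain ⟨S', α', hS', hα', rfl⟩ := hu
    rw [tf.opair, tf.opair, opair_inj, opair_inj, ef.inj, ef.inj] at he
    obtain ⟨⟨rfl, rfl⟩, rfl⟩ := he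
    exact ⟨p, m, hp, hr, rfl⟩
  · rintro ⟨p, m, hp, hr, rfl⟩
    refine ⟨p, opair (opair S α) m, hp, ?_, hr, ?_⟩
    · obtain ⟨_, ⟨_, h1⟩, ⟨_, h2⟩, _, _, ⟨_, h3, _⟩, _⟩ := (mem_P2.1 (hG.sub p hp)).2
      obtain ⟨S', α', m', hS', hα', hm', he⟩ := h3 _ hr
      rw [opair_inj, opair_inj] at he
      obtain ⟨⟨rfl, rfl⟩, rfl⟩ := he
      rw [mem_prod, mem_prod]
      exact ⟨⟨h1 _ hS', h2 _ hα'⟩, hm'⟩
    · rw [tf.opair, tf.opair]

/-- members of the generic reals -/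
theorem gj2_rv {w L U A : M} {G : M → Prop} (hG : Gen (PG2 w L U A) G)
    [ZF (Ext (PG2 w L U A) G)] {S i : M} :
    Rv (mk (PG2 w L U A) G (RN w L U A)) (emb _ G S) (emb _ G i) ↔ ∃ p, G p ∧ Rv (cr p) S i := by
  have hR : Cl2 (fun p z : M => E z (cr p)) := inferInstance
  have tf := traF hG
  have ef := embF hG
  unfold Rv RN
  rw [mem_mk_Nmx hG hR]
  constructor
  · rintro ⟨p, x, hp, hx, hr, he⟩
    rw [mem_prod'] at hx
    obtain ⟨u, m, hu, hm, rfl⟩ := hx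
    rw [tf.opair, opair_inj, ef.inj, ef.inj] at he
    obtain ⟨rfl, rfl⟩ := he
    exact ⟨p, hp, hr⟩
  · rintro ⟨p, hp, hr⟩
    refine ⟨p, opair S i, hp, ?_, hr, ?_⟩
    · obtain ⟨_, ⟨_, h1⟩, _, hn, ⟨_, h3⟩, _⟩ := (mem_P2.1 (hG.sub p hp)).2
      obtain ⟨S', i', hS', hi', he⟩ := h3 _ hr
      rw [opair_inj] at he
      obtain ⟨rfl, rfl⟩ := he
      rw [mem_prod]
      exact ⟨h1 _ hS', Trans_om _ hn _ hi'⟩
    · rw [tf.opair]

end

/-- GJ2 -/
theorem fru_gj2 (hex : EX2Stmt) (hdf : DF2Stmt) : GJ2Stmt := by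
  intro M _ _ _ w L U A R G hK hG _
  have tf := traF hG
  have ef := embF hG
  have gf := genF hG
  have hle : ∀ p q, (PG2 w L U A).le p q ↔ Le2 A p q := fun p q => Iff.rfl
  refine ⟨?_, ?_⟩
  · intro S b hS0 hb0
    obtain ⟨S, hS, rfl⟩ := ef.trans _ _ hS0
    obtain ⟨b, hb, rfl⟩ := ef.trans _ _ hb0
    obtain ⟨p, hp, hpS, hpb⟩ := gf.meetC (fun p : M => E S (cg p) ∧ E b (cd p)) inferInstance
      (fun p hp => by
        obtain ⟨q, hq, h1, h2, h3, _⟩ := hex M w L U A R p S b emp hK hp hS hb emp_mem_om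
        exact ⟨q, hq, h1, h2, h3⟩)
    obtain ⟨_, _, _, _, _, ⟨_, j1, j2, j3⟩, _⟩ := (mem_P2.1 (hG.sub p hp)).2
    obtain ⟨m, hm⟩ := j2 S b hpS hpb
    refine ⟨emb _ G m, ?_, (gj2_jv hG).2 ⟨p, m, hp, hm, rfl⟩, fun m' hm' => ?_⟩
    · obtain ⟨S', α', m', _, _, hm', he⟩ := j1 _ hm
      rw [opair_inj] at he
      rw [← tf.om, ef.mem, he.2]
      exact hm'
    · obtain ⟨p', m0, hp', hm0, rfl⟩ := (gj2_jv hG).1 hm'
      obtain ⟨r, hr, h1, h2⟩ := hG.dir p p' hp hp'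
      obtain ⟨_, _, _, _, _, ⟨_, _, _, j3'⟩, _⟩ := (mem_P2.1 (hG.sub r hr)).2
      obtain ⟨_, _, _, c1, _⟩ := h1
      obtain ⟨_, _, _, c2, _⟩ := h2
      rw [j3' S b m0 m (c2 _ hm0) (c1 _ hm)]
  · intro S S' hS0 hS0' hne
    obtain ⟨S, hS, rfl⟩ := ef.trans _ _ hS0
    obtain ⟨S', hS', rfl⟩ := ef.trans _ _ hS0'
    have hne' : S ≠ S' := fun h => hne (by rw [h])
    obtain ⟨b, hb⟩ : ∃ b, E b w := by
      by_contra hcon
      push Not at hcon
      exact hK.w1.2.1 ⟨emp, fun y hy => absurd hy (hcon y), fun y _ _ hy => absurd hy (hcon y)⟩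
    obtain ⟨p, hp, hpS, hpS', i, hi, hpi⟩ := gf.meetC
      (fun p : M => E S (cg p) ∧ E S' (cg p) ∧ ∃ i : M, E i (cn p) ∧
        ¬ (Rv (cr p) S i ↔ Rv (cr p) S' i)) inferInstance
      (fun p hp => by
        obtain ⟨q, hq, h1, h2, _⟩ := hex M w L U A R p S b emp hK hp hS hb emp_mem_om
        obtain ⟨q', hq', h1', h2', _⟩ := hex M w L U A R q S' b emp hK hq hS' hb emp_mem_om
        obtain ⟨u, i, hu, h3, h4, h5⟩ := hdf M w L U A R q' S S' hK hq' (h1'.1 _ h2) h2' hne'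
        refine ⟨u, hu, ?_, h3.1 _ (h1'.1 _ h2), h3.1 _ h2', i, h4, h5⟩
        exact (PG2 w L U A).trans u q' p hu hq' hp h3
          ((PG2 w L U A).trans q' q p hq' hq hp h1' h1))
    have hn : E (cn p) om := (mem_P2.1 (hG.sub p hp)).2.2.2.2.1
    have hio : E i om := Trans_om _ hn _ hi
    have key : ∀ T, E T (cg p) → (Rv (mk (PG2 w L U A) G (RN w L U A)) (emb _ G T) (emb _ G i) ↔
        Rv (cr p) T i) := by
      intro T hT
      rw [gj2_rv hG]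
      refine ⟨?_, fun h => ⟨p, hp, h⟩⟩
      rintro ⟨p', hp', h⟩
      obtain ⟨r, hr, h1, h2⟩ := hG.dir p p' hp hp'
      obtain ⟨_, _, _, _, _, c1, _⟩ := h1
      obtain ⟨_, _, _, _, _, c2, _⟩ := h2
      obtain ⟨_, _, _, _, ⟨_, h3⟩, _⟩ := (mem_P2.1 (hG.sub p' hp')).2
      obtain ⟨T', i', hT', hi', he⟩ := h3 _ h
      rw [opair_inj] at he
      obtain ⟨rfl, rfl⟩ := he
      exact (c1 T i hT hi).1 ((c2 T i hT' hi').2 h)
    refine ⟨emb _ G i, ?_, fun h => hpi ?_⟩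
    · rw [← tf.om, ef.mem]
      exact hio
    · rw [← key S hpS, ← key S' hpS']
      exact h

end SW.FU
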