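import Pool.Agent.H14.FRU.Stmts

/-!
Module UN2 of project FRU: an uncountable set of conditions contains two different conditions
which satisfy the hypotheses of AM2.
-/

set_option linter.unusedVariables false
set_option synthInstance.maxSize 100000

namespace SW.FU

section
variable {M : Type} [SetStr M] [ZF M]

/-- from `c` on the functions given by `S` and `S'` are different -/
def un2P (w A S S' c : M) : Prop := E c w ∧ ∀ b n, ¬ E b c → Et A S b n → ¬ Et A S' b n

instance {n : ℕ} {t s u x y : (Fin n → M) → M} [ht : DfT t] [hs : DfT s] [hu : DfT u]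
    [hx : DfT x] [hy : DfT y] : Df (fun v => un2P (t v) (s v) (u v) (x v) (y v)) := by
  unfold un2P; infer_instance

/-- the least such `c`, for the pair `z` -/
noncomputable def un2c (w A z : M) : M := the (fun c => un2P w A (fs z) (sn z) c ∧
  ∀ k, E k c → ¬ un2P w A (fs z) (sn z) k)

instance {n : ℕ} {t s u : (Fin n → M) → M} [ht : DfT t] [hs : DfT s] [hu : DfT u] :
    DfT (fun v => un2c (t v) (s v) (u v)) := by unfold un2c; infer_instance

/-- `x` is in the second component of `p` and in `b` but not in `d0` -/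
def un2Q (d0 b p x : M) : Prop := E x (cd p) ∧ ¬ E x d0 ∧ E x b

instance {n : ℕ} {t s u x : (Fin n → M) → M} [ht : DfT t] [hs : DfT s] [hu : DfT u]
    [hx : DfT x] : Df (fun v => un2Q (t v) (s v) (u v) (x v)) := by
  unfold un2Q; infer_instance

/-- the least such `x` -/
noncomputable def un2q (d0 b p : M) : M := the (fun x => un2Q d0 b p x ∧
  ∀ k, E k x → ¬ un2Q d0 b p k)

instance {n : ℕ} {t s u : (Fin n → M) → M} [ht : DfT t] [hs : DfT s] [hu : DfT u] :
    DfT (fun v => un2q (t v) (s v) (u v)) := by unfold un2q; infer_instance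

theorem un2_sing (a : M) : Fnt (sing a) := by
  have : sing a = ins a emp := SW.ext fun z => by rw [mem_sing, mem_ins]; simp
  rw [this]
  exact finF.ins finF.emp

end

/-- UN2 -/
theorem fru_un2 (hdl : DL2Stmt) (hty : TY2Stmt) (hwf : WFStmt) (hcb : CBTStmt) : UN2Stmt := by
  intro M _ _ w L U A R V hK hV hVc
  obtain ⟨V1, g0, d0, v1, v2, fg, gL, fd, dw, v3, v4⟩ := hdl M w L U A R V hK hV hVc
  obtain ⟨V2, u1, u2, u3⟩ := hty M w L U A R V1 g0 d0 hK (v1.trans hV) v2 fg fd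
  have wf := hwf M w hK.w1
  have cf := hcb M
  have how : Ord w := hK.w1.1
  obtain ⟨C, hC⟩ : ∃ C : M, ∀ c, E c C ↔ E c w ∧ ∃ z, E z (prod g0 g0) ∧ c = un2c w A z :=
    ⟨sep w (fun c => ∃ z, E z (prod g0 g0) ∧ c = un2c w A z), fun c => mem_sep' inferInstance⟩
  have hCf : Fnt C := by
    refine finF.sub (finF.img (fun z : M => un2c w A z) inferInstance (finF.prod fg fg))
      fun c hc => ?_
    rw [mem_img' inferInstance]
    exact ((hC c).1 hc).2
  have hbc : ∃ b, E b w ∧ ∀ a, E a (bun d0 C) → E a b := by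
    refine wf.bdd (fun z hz => ?_) (cf.fin (finF.bun fd hCf))
    rw [mem_bun] at hz
    rcases hz with hz | hz
    · exact dw z hz
    · exact ((hC z).1 hz).1
  obtain ⟨b, hbw, hb⟩ := hbc
  have hob : Ord b := how.mem hbw
  have hd0b : Sub d0 b := fun z hz => hb z (by rw [mem_bun]; exact Or.inl hz)
  -- eventually different functions
  have hed : ∀ S S' α n, E S g0 → E S' g0 → S ≠ S' → ¬ E α b → Et A S α n → ¬ Et A S' α n := by
    intro S S' α n hS hS' hne hα hA
    obtain ⟨c, hc, hc'⟩ := hK.ed S S' (gL S hS) (gL S' hS') hne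
    obtain ⟨c0, ho, hc0, hmin, _⟩ := ord_min (C := fun c : M => un2P w A S S' c) inferInstance
      (how.mem hc) ⟨hc, hc'⟩
    have he : un2c w A (opair S S') = c0 := by
      unfold un2c
      rw [fs_op, sn_op]
      refine the_eq ⟨hc0, hmin⟩ fun k hk => ?_
      rcases (how.mem hk.1.1).tri ho with h | h | h
      · exact absurd hk.1 (hmin k h)
      · exact h
      · exact absurd hc0 (hk.2 c0 h)
    have h1 : E c0 C := (hC c0).2 ⟨hc0.1, opair S S', by rw [mem_prod]; exact ⟨hS, hS'⟩, he.symm⟩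
    have h2 : E c0 b := hb c0 (by rw [mem_bun]; exact Or.inr h1)
    exact hc0.2 α n (fun h => hα (hob.trans h2 h)) hA
  -- conditions without new members below `b`
  obtain ⟨V3, hV3⟩ : ∃ V3 : M, ∀ p, E p V3 ↔ E p V2 ∧ ∀ x, ¬ un2Q d0 b p x :=
    ⟨sep V2 (fun p => ∀ x, ¬ un2Q d0 b p x), fun p => mem_sep' inferInstance⟩
  obtain ⟨V4, hV4⟩ : ∃ V4 : M, ∀ p, E p V4 ↔ E p V2 ∧ ∃ x, un2Q d0 b p x :=
    ⟨sep V2 (fun p => ∃ x, un2Q d0 b p x), fun p => mem_sep' inferInstance⟩
  have hq : ∀ p, E p V4 → un2Q d0 b p (un2q d0 b p) := by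
    intro p hp
    obtain ⟨x, hx⟩ := ((hV4 p).1 hp).2
    obtain ⟨x0, ho, hx0, hmin, _⟩ := ord_min (C := fun x : M => un2Q d0 b p x) inferInstance
      (hob.mem hx.2.2) hx
    have he : un2q d0 b p = x0 := by
      unfold un2q
      refine the_eq ⟨hx0, hmin⟩ fun k hk => ?_
      rcases (hob.mem hk.1.2.2).tri ho with h | h | h
      · exact absurd hk.1 (hmin k h)
      · exact h
      · exact absurd hx0 (hk.2 x0 h)
    rw [he]
    exact hx0
  have hV4c : Cb V4 := by
    refine cf.inj (fun p : M => un2q d0 b p) inferInstance (hK.w1.2.2 b hbw)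
      (fun p hp => (hq p hp).2.2) fun p q hp hq' h => ?_
    by_contra hne
    have h1 := hq p hp
    have h2 := hq q hq'
    rw [← h] at h2
    exact h1.2.1 ((v4 p q (u1 p ((hV4 p).1 hp).1) (u1 q ((hV4 q).1 hq').1) hne).2 _ h1.1 h2.1)
  have hV3c : ¬ Cb V3 := by
    intro h
    refine u2 (cf.sub (cf.bun h hV4c) fun p hp => ?_)
    rw [mem_bun, hV3, hV4]
    by_cases hx : ∃ x, un2Q d0 b p x
    · exact Or.inr ⟨hp, hx⟩
    · push Not at hx
      exact Or.inl ⟨hp, hx⟩
  obtain ⟨p, q, hp, hq', hne⟩ : ∃ p q, E p V3 ∧ E q V3 ∧ p ≠ q := by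
    by_contra hcon
    push Not at hcon
    refine hV3c ?_
    by_cases h : ∃ p, E p V3
    · obtain ⟨p, hp⟩ := h
      refine cf.fin (finF.sub (un2_sing p) fun q hq' => ?_)
      rw [mem_sing]
      exact hcon q p hq' hp
    · push Not at h
      refine cf.fin (finF.sub finF.emp fun q hq' => absurd hq' (h q))
  obtain ⟨hp2, hpb⟩ := (hV3 p).1 hp
  obtain ⟨hq2, hqb⟩ := (hV3 q).1 hq'
  have hd : ∀ p, (∀ x, ¬ un2Q d0 b p x) → ∀ x, E x (cd p) → E x b → E x d0 := by
    intro p hp x hx hxb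
    by_contra h
    exact hp x ⟨hx, h, hxb⟩
  obtain ⟨c1, c2, c3, c4⟩ := u3 p q hp2 hq2
  obtain ⟨e1, e2⟩ := v4 p q (u1 p hp2) (u1 q hq2) hne
  refine ⟨p, q, v1 p (u1 p hp2), v1 q (u1 q hq2), hne, c1, fun S i hS hS' => c2 S i (e1 S hS hS'),
    fun S α m hS hS' hα hα' => c3 S α m (e1 S hS hS') (e2 α hα hα'),
    fun δ α a k F hδ hδ' hα hα' => c4 δ α a k F (e2 δ hδ hδ') (e2 α hα hα'), ?_, ?_⟩
  · intro δ α hδ hδ' hαδ
    have hαb : E α b := hob.trans (hd0b δ (e2 δ hδ hδ')) hαδ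
    exact ⟨fun h => (v3 q (u1 q hq2)).2 α (hd p hpb α h hαb),
      fun h => (v3 p (u1 p hp2)).2 α (hd q hqb α h hαb)⟩
  · intro α S S' a hα hS1 hS2 hS1' hS2' hne' hA
    refine hed S S' α a (e1 S hS1 hS2) (e1 S' hS1' hS2') hne' (fun hαb => hα ?_) hA
    exact ⟨fun h => (v3 q (u1 q hq2)).2 α (hd p hpb α h hαb),
      fun h => (v3 p (u1 p hp2)).2 α (hd q hqb α h hαb)⟩

end SW.FU
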